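import Pool.Agent.H70.RW.T
import Pool.Agent.H70.RK.T2
import Pool.Agent.H92.RC.RZG

/-!
# The relativizing consequences of Σ_k ⊆ BQP and of PH ⊆ BQP: row RZG
-/

set_option autoImplicit false

namespace Pool.Agent.H79.RW

open Finset Filter
open Pool.Agent.H6.NB (QAlg inst)
open Pool.Agent.H70.RC (arrp)
open Pool.Agent.H70.RK (TR Gt gmap gbs gsz gd Ce Hn cv flat)
open Pool.Agent.H70.RW

lemma card_Li' (n N : ℕ) : Fintype.card (Li n N) ≤ 2 ^ (N + 1) := by
  have h : Function.Injective (fun s : Li n N => Pool.Agent.H92.RC.encS N s.1) := by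
    intro s s' hss
    exact Subtype.ext (Pool.Agent.H92.RC.encS_inj s.2.2 s'.2.2 hss)
  have h1 := Fintype.card_le_of_injective _ h
  rwa [Fintype.card_fun, Fintype.card_bool, Fintype.card_fin] at h1

lemma gsz_mono {s s' : ℕ} (hs : s ≤ s') : ∀ (m : ℕ) {T : Type} (G : Gt T m), gsz s m G →
    gsz s' m G := by
  intro m
  induction m with
  | zero => intro T G _; trivial
  | succ m ih =>
    intro T G h
    exact ⟨ih (T := List T) G h.1, fun L hL => (h.2 L hL).trans hs⟩

lemma On_mono {W : Type} {U U' : W → Prop} (h : ∀ w, U w → U' w) : ∀ T : TR W, T.On U → T.On U'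
  | .leaf _, _ => trivial
  | .node _ l r, hT => ⟨h _ hT.1, On_mono h l hT.2.1, On_mono h r hT.2.2⟩

/-- the values at the addresses with the ends `y` -/
abbrev G1 (K n N : ℕ) : Type := Ce (Li n N) (fun s => Ck s.1) K → Bool

lemma glu_inj {K : ℕ} {s : List Bool} (hK : K ≤ s.length) (y : Fin (s.length - K) → Ck s)
    {b b' : Fin K → Ck s} (h : glu b y = glu b' y) : b = b' := by
  funext i
  have h1 := congrFun h ⟨i.1, lt_of_lt_of_le i.2 hK⟩
  unfold glu at h1
  rw [dif_pos i.2, dif_pos i.2] at h1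
  exact h1

open Classical in
/-- the array with the values `g1` at the addresses with the ends `y` and the values `g0` elsewhere -/
noncomputable def ovr {K n N : ℕ} (y : Rs K n N) (g0 : Ar n N) (g1 : G1 K n N) : Ar n N :=
  fun s a => if h : ∃ b : Fin K → Ck s.1, glu b (y s) = a then g1 ⟨s, h.choose⟩ else g0 s a

/-- restriction to the addresses with the ends `y` -/
def res {K n N : ℕ} (y : Rs K n N) (g : Ar n N) : G1 K n N := fun x => g x.1 (glu x.2 (y x.1))

lemma ovr_glu {K n N : ℕ} (hK : K ≤ n) (y : Rs K n N) (g0 : Ar n N) (g1 : G1 K n N)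
    (s : Li n N) (b : Fin K → Ck s.1) : ovr y g0 g1 s (glu b (y s)) = g1 ⟨s, b⟩ := by
  have h : ∃ b' : Fin K → Ck s.1, glu b' (y s) = glu b (y s) := ⟨b, rfl⟩
  unfold ovr
  rw [dif_pos h, glu_inj (hK.trans s.2.1) (y s) h.choose_spec]

lemma ovr_ne {K n N : ℕ} (y : Rs K n N) (g0 : Ar n N) (g1 : G1 K n N)
    (s : Li n N) (a : Aa s.1) (h : ¬ ∃ b : Fin K → Ck s.1, glu b (y s) = a) :
    ovr y g0 g1 s a = g0 s a := by
  unfold ovr
  rw [dif_neg h]

/-- exchange of the values -/
noncomputable def swp {K n N : ℕ} (hK : K ≤ n) (y : Rs K n N) :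
    (Ar n N × G1 K n N) ≃ (Ar n N × G1 K n N) where
  toFun p := (ovr y p.1 p.2, res y p.1)
  invFun p := (ovr y p.1 p.2, res y p.1)
  left_inv := by
    classical
    rintro ⟨g0, g1⟩
    refine Prod.ext ?_ ?_
    · funext s a
      by_cases h : ∃ b : Fin K → Ck s.1, glu b (y s) = a
      · obtain ⟨b, rfl⟩ := h
        show ovr y _ _ s (glu b (y s)) = _
        rw [ovr_glu hK]
        rfl
      · show ovr y _ _ s a = _
        rw [ovr_ne _ _ _ _ _ h]
        exact ovr_ne _ _ _ _ _ h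
    · funext x
      exact ovr_glu hK y g0 g1 x.1 x.2
  right_inv := by
    classical
    rintro ⟨g0, g1⟩
    refine Prod.ext ?_ ?_
    · funext s a
      by_cases h : ∃ b : Fin K → Ck s.1, glu b (y s) = a
      · obtain ⟨b, rfl⟩ := h
        show ovr y _ _ s (glu b (y s)) = _
        rw [ovr_glu hK]
        rfl
      · show ovr y _ _ s a = _
        rw [ovr_ne _ _ _ _ _ h]
        exact ovr_ne _ _ _ _ _ h
    · funext x
      exact ovr_glu hK y g0 g1 x.1 x.2

lemma sum_ovr {K n N : ℕ} (hK : K ≤ n) (y : Rs K n N) (F : Ar n N → ℝ) :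
    ∑ g0 : Ar n N, ∑ g1 : G1 K n N, F (ovr y g0 g1) =
      (Fintype.card (G1 K n N) : ℝ) * ∑ g : Ar n N, F g := by
  classical
  rw [← Fintype.sum_prod_type' (f := fun g0 g1 => F (ovr y g0 g1))]
  refine (Equiv.sum_comp (swp hK y) (fun p => F p.1)).trans ?_
  rw [Fintype.sum_prod_type]
  simp only [Finset.sum_const, Finset.card_univ, nsmul_eq_mul]
  rw [← Finset.mul_sum]

theorem pf_RZG (hRZK : Pool.Agent.H70.RK.T_RZK) (hCVF : Pool.Agent.H70.RK.T_CVF)
    (hLIT : Pool.Agent.H70.RW.T_LIT) (hGTL : Pool.Agent.H70.RK.T_GTL) :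
    Pool.Agent.H70.RW.T_RZG := by
  classical
  intro κ V D n N K G t hk hG hN2 hKn hnN h4 X y P
  obtain ⟨g1, g2, g3, g4, g5, g6, g7⟩ := hGTL
  have gz : Ar n N := fun _ _ => false
  have hinj : Function.Injective (pk (K := K) y) := (hLIT κ V n N D gz P).1 K y hKn
  have hval : ∀ (g : Ar n N) (s : Li n N) (x : Aa s.1),
      lbv V D X g P (arrp s.1 (flat x)) = g s x := fun g => ((hLIT κ V n N D g P).2.2 X).1
  have hdep : ∀ (g g' : Ar n N) (w : List Bool),
      (∀ (s : Li n N) (x : Aa s.1), w = arrp s.1 (flat x) → g s x = g' s x) →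
      lbv V D X g P w = lbv V D X g' P w := fun g => ((hLIT κ V n N D g P).2.2 X).2.1
  -- length of the queries
  have hts : ∀ s : Li n N, t s + 1 ≤ N := by
    intro s
    have h1 := hG.sq s
    have h2 := s.2.2
    by_contra hcon
    have h3 : N + 1 ≤ t s + 1 := by omega
    have h5 : (N + 1) ^ 2 ≤ (t s + 1) ^ 2 := Nat.pow_le_pow_left h3 2
    nlinarith
  -- outside of the addresses with the ends y
  have hout : ∀ (g0 : Ar n N) (b1 : G1 K n N) (w : List Bool), (∀ x, pk y x ≠ w) →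
      lbv V D X (ovr y g0 b1) P w = lbv V D X g0 P w := by
    intro g0 b1 w hw
    refine hdep _ _ w fun s x hx => ovr_ne _ _ _ _ _ ?_
    rintro ⟨b, rfl⟩
    exact hw ⟨s, b⟩ hx.symm
  -- the gate does not depend on the values at the addresses with the ends y
  have hgs : ∀ (s : Li n N) (g0 : Ar n N) (b1 : G1 K n N),
      gs V G D X y (ovr y g0 b1) P s = gs V G D X y g0 P s := by
    intro s g0 b1
    unfold gs
    refine g6 _ _ _ _ K (G s) fun T hT => ?_
    refine ((hCVF _ (t s) T (hG.ql s T hT)).1 _).2.2.2.2.2 _ fun w _ hw => ?_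
    exact hout g0 b1 w fun x hx => hw ⟨x, hx⟩
  obtain ⟨q, hq⟩ : ∃ q : ℝ, q = K * (2 ^ N) ^ K * (3 * (4 * N ^ (K + 2) / 2 ^ (4 * n)) ^ N) :=
    ⟨_, rfl⟩
  have hq0 : 0 ≤ q := by rw [hq]; positivity
  -- bad pairs for one instance, for fixed values elsewhere
  have hone0 : ∀ (s : Li n N) (g0 : Ar n N),
      (∑ H : Hi K n N, ∑ b1 : G1 K n N, if gd (lbv V D X (ovr y g0 b1) P) N K N (pk y) H
        (gs V G D X y (ovr y g0 b1) P s) then (0 : ℝ) else 1) ≤
          q * ((Fintype.card (Hi K n N) : ℝ) * Fintype.card (G1 K n N)) := by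
    intro s g0
    have h1 := hRZK (Li n N) (List Bool) (fun s => Ck s.1) N (2 ^ (4 * n)) (2 ^ N) K N
      (pk (K := K) y) (fun b1 => lbv V D X (ovr y g0 b1) P)
      (gs V G D X y g0 P s) hinj
      (fun b1 x => by
        show lbv V D X (ovr y g0 b1) P (pk y x) = b1 x
        unfold pk
        rw [hval, ovr_glu hKn])
      (fun b1 b1' w hw => by
        show lbv V D X (ovr y g0 b1) P w = lbv V D X (ovr y g0 b1') P w
        rw [hout g0 b1 w hw, hout g0 b1' w hw])
      ((g2 _ _ _ _ K _).2 (gsz_mono (Nat.pow_le_pow_right (by norm_num) (hts s)) K _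
        (hG.len s)))
      (fun T hT => ?_) (fun s' => ?_) (Nat.one_le_two_pow) (by omega) (Nat.one_le_two_pow) ?_
    · have h2 : (Nat.card {x : Hn (Li n N) (fun s => Ck s.1) K × G1 K n N //
          ¬ gd (lbv V D X (ovr y g0 x.2) P) N K N (pk y) x.1 (gs V G D X y g0 P s)} : ℝ) =
          ∑ H : Hi K n N, ∑ b1 : G1 K n N, if gd (lbv V D X (ovr y g0 b1) P) N K N (pk y) H
            (gs V G D X y (ovr y g0 b1) P s) then (0 : ℝ) else 1 := by
        rw [← Fintype.sum_prod_type' (f := fun (H : Hi K n N) (b1 : G1 K n N) =>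
          if gd (lbv V D X (ovr y g0 b1) P) N K N (pk y) H
            (gs V G D X y (ovr y g0 b1) P s) then (0 : ℝ) else 1)]
        rw [Nat.card_eq_fintype_card, Fintype.card_subtype, ← Finset.sum_boole]
        refine Finset.sum_congr rfl fun p _ => ?_
        rw [hgs]
        by_cases hp : gd (lbv V D X (ovr y g0 p.2) P) N K N (pk y) p.1 (gs V G D X y g0 P s)
        · rw [if_neg (not_not_intro hp), if_pos hp]
        · rw [if_pos hp, if_neg hp]
      have h3 : Nat.card (Ce (Li n N) (fun s => Ck s.1) K → Bool) =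
          Fintype.card (G1 K n N) := Nat.card_eq_fintype_card
      have h5 : Nat.card (Hn (Li n N) (fun s => Ck s.1) K) = Fintype.card (Hi K n N) :=
        Nat.card_eq_fintype_card
      rw [h2, h3, h5] at h1
      have h6 : (0 : ℝ) < ((2 : ℝ) ^ (4 * n)) ^ N := by positivity
      have h7 : q * ((Fintype.card (Hi K n N) : ℝ) * Fintype.card (G1 K n N)) =
          (K : ℝ) * (2 ^ N) ^ K * (3 * (4 * (N * ((N : ℝ) ^ K * N))) ^ N) *
          ((Fintype.card (Hi K n N) : ℝ) * Fintype.card (G1 K n N)) /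
            ((2 : ℝ) ^ (4 * n)) ^ N := by
        rw [hq, div_pow, show 4 * ((N : ℝ) * ((N : ℝ) ^ K * N)) = 4 * (N : ℝ) ^ (K + 2) by ring]
        ring
      rw [h7, le_div_iff₀ h6]
      push_cast at h1
      exact h1
    · unfold gs at hT
      rw [g1] at hT
      obtain ⟨T0, hT0, rfl⟩ := List.mem_map.1 hT
      obtain ⟨c1, c2, c3, c4, -⟩ := (hCVF (fun w => ∃ x : Ce (Li n N) (fun s => Ck s.1) K,
        pk y x = w) (t s) T0 (hG.ql s T0 hT0)).1 (lbv V D X g0 P)
      refine ⟨?_, c2, On_mono (fun w hw => hw.1) _ c4⟩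
      have h5 := hG.dp s T0 hT0
      have h6 := hts s
      omega
    · rw [Fintype.card_fun, Fintype.card_bool, Fintype.card_fin]
      exact Nat.pow_le_pow_right (by norm_num) (Nat.mul_le_mul_left 4 s'.2.1)
    · calc 4 * (N * (N ^ K * N)) = 4 * N ^ (K + 2) := by ring
        _ ≤ _ := h4
  -- bad pairs for one instance
  have hone : ∀ s : Li n N,
      (∑ p : Hi K n N × Ar n N, if gd (lbv V D X p.2 P) N K N (pk y) p.1
        (gs V G D X y p.2 P s) then (0 : ℝ) else 1) ≤
          q * ((Fintype.card (Hi K n N) : ℝ) * Fintype.card (Ar n N)) := by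
    intro s
    have hc : (0 : ℝ) < Fintype.card (G1 K n N) := by exact_mod_cast Fintype.card_pos
    refine le_of_mul_le_mul_left ?_ hc
    have e1 : (Fintype.card (G1 K n N) : ℝ) * ∑ p : Hi K n N × Ar n N,
        (if gd (lbv V D X p.2 P) N K N (pk y) p.1 (gs V G D X y p.2 P s) then (0 : ℝ) else 1) =
        ∑ g0 : Ar n N, ∑ H : Hi K n N, ∑ b1 : G1 K n N,
          if gd (lbv V D X (ovr y g0 b1) P) N K N (pk y) H
            (gs V G D X y (ovr y g0 b1) P s) then (0 : ℝ) else 1 := by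
      rw [Fintype.sum_prod_type, Finset.mul_sum, Finset.sum_comm]
      refine Finset.sum_congr rfl fun H _ => ?_
      exact (sum_ovr hKn y (fun g => if gd (lbv V D X g P) N K N (pk y) H
        (gs V G D X y g P s) then (0 : ℝ) else 1)).symm
    rw [e1]
    refine (Finset.sum_le_sum fun g0 _ => hone0 s g0).trans ?_
    rw [Finset.sum_const, Finset.card_univ, nsmul_eq_mul]
    refine le_of_eq ?_
    ring
  -- union bound
  have hpt : ∀ p : Hi K n N × Ar n N, (1 : ℝ) - ∑ s : Li n N,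
      (if gd (lbv V D X p.2 P) N K N (pk y) p.1 (gs V G D X y p.2 P s) then (0 : ℝ) else 1) ≤
      if GoodS V G D X (y, p.1, p.2, P) then (1 : ℝ) else 0 := by
    intro p
    have h0 : ∀ s ∈ (univ : Finset (Li n N)), (0 : ℝ) ≤
        (if gd (lbv V D X p.2 P) N K N (pk y) p.1 (gs V G D X y p.2 P s) then (0 : ℝ)
          else 1) := by
      intro s _
      split_ifs <;> norm_num
    by_cases hg : GoodS V G D X (y, p.1, p.2, P)
    · rw [if_pos hg]
      have := Finset.sum_nonneg h0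
      linarith
    · rw [if_neg hg]
      unfold GoodS at hg
      push Not at hg
      obtain ⟨s, hs⟩ := hg
      simp only at hs
      have h1 := Finset.single_le_sum h0 (mem_univ s)
      rw [if_neg hs] at h1
      linarith
  have hsum := Finset.sum_le_sum (fun p (_ : p ∈ (univ : Finset (Hi K n N × Ar n N))) => hpt p)
  rw [Finset.sum_sub_distrib, Finset.sum_comm] at hsum
  obtain ⟨nA, hnA⟩ : ∃ nA : ℝ, nA = (Fintype.card (Hi K n N) : ℝ) * Fintype.card (Ar n N) :=
    ⟨_, rfl⟩
  have hcard : ∑ _p : Hi K n N × Ar n N, (1 : ℝ) = nA := by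
    rw [Finset.sum_const, Finset.card_univ, Fintype.card_prod, nsmul_eq_mul, mul_one, hnA]
    push_cast
    rfl
  rw [hcard] at hsum
  have hS := Finset.sum_le_sum (fun s (_ : s ∈ (univ : Finset (Li n N))) => hone s)
  rw [Finset.sum_const, nsmul_eq_mul, Finset.card_univ, ← hnA] at hS
  rw [← hnA, ← hq]
  have hnA0 : 0 ≤ nA := by rw [hnA]; positivity
  have hL : (Fintype.card (Li n N) : ℝ) ≤ 2 ^ (N + 1) := by exact_mod_cast card_Li' n N
  have hM := mul_le_mul_of_nonneg_right hL (mul_nonneg hq0 hnA0)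
  have hgoal : ∑ p : Hi K n N × Ar n N, (if GoodS V G D X (y, p.1, p.2, P) then (1 : ℝ) else 0) =
      ∑ a : Hi K n N, ∑ h : Ar n N, if GoodS V G D X (y, a, h, P) then (1 : ℝ) else 0 := by
    rw [Fintype.sum_prod_type]
  rw [← hgoal]
  have h9 : (1 - 2 ^ (N + 1) * q) * nA = nA - 2 ^ (N + 1) * (q * nA) := by ring
  rw [h9]
  linarith

end Pool.Agent.H79.RW
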