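import Pool.Agent.H75.RW.Targets

/-!
# Board rwd_modules, row SMP (helper79): the sums of the random walk
-/

set_option autoImplicit false

open List Pool.Agent.H68.TG Pool.Agent.H75.RW

namespace Pool.Agent.H79.RW

theorem cs_geo {ι : Type*} [Fintype ι] (n : ℕ) (a : ℕ → ι → ℝ) (q G : ℝ) (hq0 : 0 < q)
    (hq1 : q < 1) (hG : 0 ≤ G)
    (h : ∀ j, q ^ 2 * ∑ σ, a j σ ^ 2 ≤ q ^ (2 * j) * G) :
    q ^ 2 * ∑ σ, (∑ j ∈ Finset.range n, a j σ) ^ 2 ≤ (1 / (1 - q)) ^ 2 * G := by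
  obtain ⟨Z, hZ⟩ : ∃ Z : ℝ, Z = ∑ j ∈ Finset.range n, q ^ j := ⟨_, rfl⟩
  have hZ0 : 0 ≤ Z := by rw [hZ]; positivity
  have h1q : 0 < 1 - q := by linarith
  have hZ1 : Z ≤ 1 / (1 - q) := by
    rw [le_div_iff₀ h1q, mul_comm, hZ, mul_neg_geom_sum]
    have := pow_pos hq0 n
    linarith
  have h1 : ∀ σ, (∑ j ∈ Finset.range n, a j σ) ^ 2 ≤
      Z * ∑ j ∈ Finset.range n, a j σ ^ 2 / q ^ j := by
    intro σ
    rw [hZ]
    refine Finset.sum_sq_le_sum_mul_sum_of_sq_eq_mul _ (fun j _ => by positivity)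
      (fun j _ => by positivity) (fun j _ => ?_)
    have := (pow_pos hq0 j).ne'
    field_simp
  have h2 : ∑ σ, (∑ j ∈ Finset.range n, a j σ) ^ 2 ≤
      Z * ∑ j ∈ Finset.range n, (∑ σ, a j σ ^ 2) / q ^ j := by
    refine (Finset.sum_le_sum fun σ _ => h1 σ).trans (le_of_eq ?_)
    rw [← Finset.mul_sum, Finset.sum_comm]
    congr 1
    refine Finset.sum_congr rfl fun j _ => ?_
    rw [Finset.sum_div]
  have h3 : q ^ 2 * ∑ j ∈ Finset.range n, (∑ σ, a j σ ^ 2) / q ^ j ≤ Z * G := by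
    rw [Finset.mul_sum, hZ, Finset.sum_mul]
    refine Finset.sum_le_sum fun j _ => ?_
    rw [← mul_div_assoc, div_le_iff₀ (pow_pos hq0 j)]
    refine (h j).trans (le_of_eq ?_)
    rw [two_mul, pow_add]
    ring
  calc q ^ 2 * ∑ σ, (∑ j ∈ Finset.range n, a j σ) ^ 2
      ≤ q ^ 2 * (Z * ∑ j ∈ Finset.range n, (∑ σ, a j σ ^ 2) / q ^ j) :=
        mul_le_mul_of_nonneg_left h2 (by positivity)
    _ = Z * (q ^ 2 * ∑ j ∈ Finset.range n, (∑ σ, a j σ ^ 2) / q ^ j) := by ring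
    _ ≤ Z * (Z * G) := mul_le_mul_of_nonneg_left h3 hZ0
    _ = Z ^ 2 * G := by ring
    _ ≤ (1 / (1 - q)) ^ 2 * G := mul_le_mul_of_nonneg_right (pow_le_pow_left₀ hZ0 hZ1 2) hG

theorem P_lin (t : ℕ) (a : ℝ) (f g : V t → ℝ) (σ : V t) :
    P t (fun σ => a * f σ + g σ) σ = a * P t f σ + P t g σ := by
  unfold P
  ring

theorem P_chi (hCHI : T_CHI) (t : ℕ) (σ : V (t + 2)) : P (t + 2) (chi t) σ = -chi t σ := by
  obtain ⟨-, -, -, -, h⟩ := hCHI t
  unfold P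
  rw [h, h, h]
  ring

theorem P_iter (hCHI : T_CHI) (t : ℕ) (a : ℝ) (g : V (t + 2) → ℝ) (j : ℕ) :
    ∀ σ, (P (t + 2))^[j] (fun σ => a * chi t σ + g σ) σ =
      (-1) ^ j * a * chi t σ + (P (t + 2))^[j] g σ := by
  induction j with
  | zero =>
    intro σ
    simp
  | succ j ih =>
    intro σ
    rw [Function.iterate_succ_apply', Function.iterate_succ_apply']
    have h1 : (P (t + 2))^[j] (fun σ => a * chi t σ + g σ) =
        fun σ => ((-1) ^ j * a) * chi t σ + (P (t + 2))^[j] g σ := funext ih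
    rw [h1, P_lin, P_chi hCHI]
    ring

theorem alt_sum (n : ℕ) : (∑ j ∈ Finset.range n, (-1 : ℝ) ^ j) = (1 - (-1) ^ n) / 2 := by
  induction n with
  | zero => simp
  | succ n ih =>
    rw [Finset.sum_range_succ, ih, pow_succ]
    ring

theorem alt_sq (n : ℕ) : (∑ j ∈ Finset.range n, (-1 : ℝ) ^ j) ^ 2 ≤ 1 := by
  rw [alt_sum]
  rcases neg_one_pow_eq_or ℝ n with h | h <;> rw [h] <;> norm_num

theorem pf_SMP (hITC : T_ITC) (hCHI : T_CHI) : T_SMP := by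
  intro t n f hf
  obtain ⟨hc1, hc2, -, -, -⟩ := hCHI t
  obtain ⟨X, hX⟩ : ∃ X : ℝ, X = (9 / 2 : ℝ) ^ (t + 2) := ⟨_, rfl⟩
  have hX20 : 20 ≤ X := by
    have h1 : (9 / 2 : ℝ) ^ 2 ≤ (9 / 2 : ℝ) ^ (t + 2) :=
      pow_le_pow_right₀ (by norm_num) (by omega)
    rw [hX]
    norm_num at h1 ⊢
    linarith
  obtain ⟨K, hK⟩ : ∃ K : ℝ, K = ∑ σ : V (t + 2), chi t σ ^ 2 := ⟨_, rfl⟩
  have hK0 : 0 < K := by
    rw [hK, Finset.sum_congr rfl fun σ _ => hc1 σ, Finset.sum_const, Finset.card_univ, cardV]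
    simp
  obtain ⟨c, hc⟩ : ∃ c : ℝ, c = (∑ σ, chi t σ * f σ) / K := ⟨_, rfl⟩
  have hcK : c * K = ∑ σ, chi t σ * f σ := by rw [hc]; field_simp
  set g : V (t + 2) → ℝ := fun σ => f σ - c * chi t σ with hg
  have hg0 : ∑ σ, g σ = 0 := by
    rw [hg, Finset.sum_sub_distrib, ← Finset.mul_sum, hc2, hf]
    ring
  have hg1 : ∑ σ, chi t σ * g σ = 0 := by
    have e : ∀ σ, chi t σ * g σ = chi t σ * f σ - c * chi t σ ^ 2 := fun σ => by
      rw [hg]; ring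
    rw [Finset.sum_congr rfl fun σ _ => e σ, Finset.sum_sub_distrib, ← Finset.mul_sum, ← hK,
      hcK, sub_self]
  obtain ⟨G, hG⟩ : ∃ G : ℝ, G = ∑ σ, g σ ^ 2 := ⟨_, rfl⟩
  have hG0 : 0 ≤ G := by rw [hG]; positivity
  have hff : ∑ σ, f σ ^ 2 = c ^ 2 * K + G := by
    have e : ∀ σ, f σ ^ 2 = c ^ 2 * chi t σ ^ 2 + 2 * c * (chi t σ * g σ) + g σ ^ 2 :=
      fun σ => by rw [hg]; ring
    rw [Finset.sum_congr rfl fun σ _ => e σ, Finset.sum_add_distrib, Finset.sum_add_distrib,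
      ← Finset.mul_sum, ← Finset.mul_sum, hg1, ← hK, ← hG]
    ring
  -- the contraction
  obtain ⟨q, hq⟩ : ∃ q : ℝ, q = 1 - 1 / (6480 * X) := ⟨_, rfl⟩
  have hy0 : 0 < 1 / (6480 * X) := by positivity
  have hy1 : 1 / (6480 * X) ≤ 1 / 100000 := by
    refine one_div_le_one_div_of_le (by norm_num) (by linarith)
  have hq0 : 0 < q := by rw [hq]; linarith
  have hq1 : q < 1 := by rw [hq]; linarith
  have hrho : rho t = 1 - 4 * (1 / (6480 * X)) := by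
    unfold rho
    rw [← hX]
    field_simp
    ring
  have hrho0 : 0 ≤ rho t := by rw [hrho]; linarith
  have hrq : rho t ≤ q ^ 4 := by
    have := one_add_mul_le_pow (a := -(1 / (6480 * X))) (by linarith) 4
    rw [hrho, hq]
    have e : (1 + ((4 : ℕ) : ℝ) * -(1 / (6480 * X))) = 1 - 4 * (1 / (6480 * X)) := by
      push_cast; ring
    rw [e] at this
    exact this
  have hcon : ∀ j, q ^ 2 * ∑ σ, ((P (t + 2))^[j] g) σ ^ 2 ≤ q ^ (2 * j) * G := by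
    intro j
    have h1 := hITC t j g hg0 hg1
    rw [← hG] at h1
    have h2 : rho t ^ (j / 2) ≤ q ^ (4 * (j / 2)) := by
      rw [pow_mul]
      exact pow_le_pow_left₀ hrho0 hrq _
    have h3 : q ^ 2 * q ^ (4 * (j / 2)) ≤ q ^ (2 * j) := by
      rw [← pow_add]
      exact pow_le_pow_of_le_one hq0.le hq1.le (by omega)
    calc q ^ 2 * ∑ σ, ((P (t + 2))^[j] g) σ ^ 2 ≤ q ^ 2 * (rho t ^ (j / 2) * G) :=
          mul_le_mul_of_nonneg_left h1 (by positivity)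
      _ ≤ q ^ 2 * (q ^ (4 * (j / 2)) * G) := by
          refine mul_le_mul_of_nonneg_left ?_ (by positivity)
          exact mul_le_mul_of_nonneg_right h2 hG0
      _ = q ^ 2 * q ^ (4 * (j / 2)) * G := by ring
      _ ≤ q ^ (2 * j) * G := mul_le_mul_of_nonneg_right h3 hG0
  have hmain := cs_geo n (fun j σ => ((P (t + 2))^[j] g) σ) q G hq0 hq1 hG0 hcon
  have h1q : 1 / (1 - q) = 6480 * X := by
    rw [hq]
    have : (X : ℝ) ≠ 0 := by positivity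
    field_simp
    ring
  rw [h1q] at hmain
  obtain ⟨S, hS⟩ : ∃ S : ℝ,
    S = ∑ σ, (∑ j ∈ Finset.range n, ((P (t + 2))^[j] g) σ) ^ 2 := ⟨_, rfl⟩
  have hS0 : 0 ≤ S := by rw [hS]; positivity
  have hmain' : q ^ 2 * S ≤ (6480 * X) ^ 2 * G := by rw [hS]; exact hmain
  have hq2 : 999 / 1000 ≤ q ^ 2 := by
    have : 99999 / 100000 ≤ q := by rw [hq]; linarith
    nlinarith
  have hS1 : 999 / 1000 * S ≤ (6480 * X) ^ 2 * G :=
    (mul_le_mul_of_nonneg_right hq2 hS0).trans hmain'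
  -- the sum
  obtain ⟨e, he⟩ : ∃ e : ℝ, e = ∑ j ∈ Finset.range n, (-1 : ℝ) ^ j := ⟨_, rfl⟩
  have he1 : e ^ 2 ≤ 1 := by rw [he]; exact alt_sq n
  have hfe : ∀ σ, ∑ j ∈ Finset.range n, ((P (t + 2))^[j] f) σ =
      e * c * chi t σ + ∑ j ∈ Finset.range n, ((P (t + 2))^[j] g) σ := by
    intro σ
    have hfg : f = fun σ => c * chi t σ + g σ := by
      funext σ
      rw [hg]
      ring
    have h1 : ∀ j, ((P (t + 2))^[j] f) σ =
        (-1) ^ j * c * chi t σ + ((P (t + 2))^[j] g) σ := by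
      intro j
      conv_lhs => rw [hfg]
      exact P_iter hCHI t c g j σ
    rw [Finset.sum_congr rfl fun j _ => h1 j, Finset.sum_add_distrib, he, Finset.sum_mul,
      Finset.sum_mul]
  have hsq : ∀ u v : ℝ, (u + v) ^ 2 ≤ 101 * u ^ 2 + 101 / 100 * v ^ 2 := by
    intro u v
    nlinarith [sq_nonneg (10 * u - v / 10)]
  have htot : ∑ σ, (∑ j ∈ Finset.range n, ((P (t + 2))^[j] f) σ) ^ 2 ≤
      101 * (c ^ 2 * K) + 101 / 100 * S := by
    calc ∑ σ, (∑ j ∈ Finset.range n, ((P (t + 2))^[j] f) σ) ^ 2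
        ≤ ∑ σ, (101 * (c ^ 2 * chi t σ ^ 2) +
            101 / 100 * (∑ j ∈ Finset.range n, ((P (t + 2))^[j] g) σ) ^ 2) := by
          refine Finset.sum_le_sum fun σ _ => ?_
          rw [hfe σ]
          refine (hsq _ _).trans (add_le_add ?_ le_rfl)
          have h1 : 0 ≤ c ^ 2 * chi t σ ^ 2 := by positivity
          nlinarith
      _ = 101 * (c ^ 2 * K) + 101 / 100 * S := by
          rw [Finset.sum_add_distrib, ← Finset.mul_sum, ← Finset.mul_sum, ← Finset.mul_sum,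
            ← hK, ← hS]
  rw [hff, ← hX]
  have hcK0 : 0 ≤ c ^ 2 * K := by positivity
  have hX2 : 400 ≤ X ^ 2 := by nlinarith
  have h1 : 101 * (c ^ 2 * K) ≤ (7000 * X) ^ 2 * (c ^ 2 * K) := by
    refine mul_le_mul_of_nonneg_right ?_ hcK0
    nlinarith
  have h2 : 101 / 100 * S ≤ (7000 * X) ^ 2 * G := by
    have h3 : 0 ≤ X ^ 2 * G := by positivity
    nlinarith
  linarith

end Pool.Agent.H79.RW
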